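import Pool.Agent.Cub.Curve

set_option autoImplicit false

/-! Points over finite extensions whose coordinates are polynomials of small degree in a
generator. -/

namespace Pool.Agent.Cub

open MvPolynomial

variable {k : Type*} [Field k] [CharZero k] {n : ℕ}
  {L : Type*} [Field L] [Algebra k L] [FiniteDimensional k L]

/-- A zero over `L` with coordinates of degree at most `e` in `w`. -/
theorem contact_one {f : MvPolynomial (Fin n) k} (hf : f.IsHomogeneous 3) {w : L}
    {u : Fin n → L} (hu : u ≠ 0) (hfu : aeval u f = 0) {e : ℕ}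
    (hp : ∀ i, ∃ p : Polynomial k, p.natDegree ≤ e ∧ Polynomial.aeval w p = u i)
    (h3 : ¬ 3 ∣ (minpoly k w).natDegree) (he : 3 * e ≤ (minpoly k w).natDegree + 2) :
    ∃ z : Fin n → k, z ≠ 0 ∧ aeval z f = 0 := by
  choose y hy hyu using hp
  have hint : IsIntegral k w := Algebra.IsIntegral.isIntegral w
  refine curve hf (minpoly.irreducible hint) (a := 1) (by rwa [one_mul]) e y hy
    (by rwa [one_mul]) ?_ ?_
  · rw [pow_one]
    apply minpoly.dvd
    rw [aeval_comp (Polynomial.aeval w) y f]
    have : (fun i => Polynomial.aeval w (y i)) = u := funext hyu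
    rw [this, hfu]
  · by_contra hall
    push Not at hall
    apply hu
    funext i
    rw [← hyu i, Pi.zero_apply]
    exact (minpoly.dvd_iff).1 (hall i)

/-- Singular points are zeros. -/
theorem zero_of_sing {R : Type*} [CommRing R] [Algebra k R] {f : MvPolynomial (Fin n) k}
    (hf : f.IsHomogeneous 3) {u : Fin n → R} (hsing : ∀ i, aeval u (pderiv i f) = 0) :
    aeval u f = 0 := by
  have h := hf.sum_X_mul_pderiv
  have h2 := congrArg (aeval u) h
  rw [map_sum] at h2
  rw [Finset.sum_eq_zero (fun i _ => by rw [map_mul, hsing i, mul_zero])] at h2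
  have h3 : aeval u ((3 : ℕ) • f) = (3 : ℕ) • aeval u f := map_nsmul _ _ _
  have h4 : (3 : k) • aeval u f = 0 := by
    rw [h3] at h2
    rw [h2, ← Nat.cast_smul_eq_nsmul k]
    norm_num
  have h5 : (3 : k) ≠ 0 := by norm_num
  have := congrArg (fun r => (3 : k)⁻¹ • r) h4
  simpa [smul_smul, h5] using this

/-- A polynomial curve through a singular point meets the cubic with multiplicity two. -/
theorem sq_dvd {f : MvPolynomial (Fin n) k} (hf : f.IsHomogeneous 3) {w : L}
    {u : Fin n → L} (hsing : ∀ i, aeval u (pderiv i f) = 0) {y : Fin n → Polynomial k}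
    (hyu : ∀ i, Polynomial.aeval w (y i) = u i) : minpoly k w ^ 2 ∣ aeval y f := by
  have hyu' : (fun i => Polynomial.aeval w (y i)) = u := funext hyu
  have hint : IsIntegral k w := Algebra.IsIntegral.isIntegral w
  have hfu : aeval u f = 0 := zero_of_sing hf hsing
  have h1 : minpoly k w ∣ aeval y f := by
    apply minpoly.dvd
    rw [aeval_comp (Polynomial.aeval w) y f, hyu', hfu]
  obtain ⟨g, hg⟩ := h1
  have h2 : Polynomial.aeval w (Polynomial.derivative (aeval y f)) = 0 := by
    rw [derivative_aeval, map_sum]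
    refine Finset.sum_eq_zero fun i _ => ?_
    rw [map_mul, aeval_comp (Polynomial.aeval w) y (pderiv i f), hyu', hsing i, zero_mul]
  rw [hg, Polynomial.derivative_mul, map_add, map_mul, map_mul, minpoly.aeval, zero_mul,
    add_zero] at h2
  have hsep : Polynomial.aeval w (Polynomial.derivative (minpoly k w)) ≠ 0 :=
    (minpoly.irreducible hint).separable.aeval_derivative_ne_zero (minpoly.aeval k w)
  have h4 : Polynomial.aeval w g = 0 := (mul_eq_zero.1 h2).resolve_left hsep
  obtain ⟨g', hg'⟩ := minpoly.dvd k w h4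
  exact ⟨g', by rw [hg, hg']; ring⟩

/-- A singular point over `L` with coordinates of degree at most `e` in `w`. -/
theorem contact_two {f : MvPolynomial (Fin n) k} (hf : f.IsHomogeneous 3) {w : L}
    {u : Fin n → L} (hu : u ≠ 0) (hsing : ∀ i, aeval u (pderiv i f) = 0) {e : ℕ}
    (hp : ∀ i, ∃ p : Polynomial k, p.natDegree ≤ e ∧ Polynomial.aeval w p = u i)
    (h3 : ¬ 3 ∣ (minpoly k w).natDegree) (he : 3 * e ≤ 2 * (minpoly k w).natDegree + 2) :
    ∃ z : Fin n → k, z ≠ 0 ∧ aeval z f = 0 := by
  choose y hy hyu using hp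
  have hint : IsIntegral k w := Algebra.IsIntegral.isIntegral w
  refine curve hf (minpoly.irreducible hint) (a := 2) ?_ e y hy he (sq_dvd hf hsing hyu) ?_
  · intro h
    rw [Nat.Coprime.dvd_mul_left (by norm_num)] at h
    exact h3 h
  · by_contra hall
    push Not at hall
    apply hu
    funext i
    rw [← hyu i, Pi.zero_apply]
    exact (minpoly.dvd_iff).1 (hall i)

end Pool.Agent.Cub
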