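import Pool.Agent.Cub.Orb

set_option autoImplicit false

/-! Cubic hypersurfaces whose number of singular points is not divisible by three. -/

namespace Pool.Agent.Cub

open MvPolynomial

variable {k : Type*} [Field k] [CharZero k] {m : ℕ}

/-- The singular points, over the algebraic closure, of the projective hypersurface `g = 0`: the
points at which all partial derivatives of `g` vanish. -/
def SingPts (g : MvPolynomial (Fin m) k) :
    Set (Projectivization (AlgebraicClosure k) (Fin m → AlgebraicClosure k)) :=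
  {P | ∀ i, aeval P.rep (pderiv i g) = 0}

/-- The first nonzero coordinate is one. -/
private def Nrm {K : Type*} [Field K] (v : Fin m → K) : Prop := ∃ i, v i = 1 ∧ ∀ j < i, v j = 0

private theorem nrm_exists {K : Type*} [Field K] (w : Fin m → K) (hw : w ≠ 0) :
    ∃ c : K, c ≠ 0 ∧ Nrm (c • w) := by
  classical
  obtain ⟨i, hi⟩ : ∃ i, w i ≠ 0 := by
    by_contra hall
    push Not at hall
    exact hw (funext hall)
  set s : Finset (Fin m) := Finset.univ.filter (fun i => w i ≠ 0) with hs
  have hne : s.Nonempty := ⟨i, by rw [hs, Finset.mem_filter]; exact ⟨Finset.mem_univ i, hi⟩⟩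
  have h1 : w (s.min' hne) ≠ 0 := by
    exact (Finset.mem_filter.1 (Finset.min'_mem s hne)).2
  refine ⟨(w (s.min' hne))⁻¹, inv_ne_zero h1, s.min' hne, ?_, ?_⟩
  · rw [Pi.smul_apply, smul_eq_mul, inv_mul_cancel₀ h1]
  · intro j hj
    have h2 : w j = 0 := by
      by_contra h3
      have h4 : j ∈ s := by rw [hs, Finset.mem_filter]; exact ⟨Finset.mem_univ j, h3⟩
      exact absurd (Finset.min'_le s j h4) (not_le.2 hj)
    rw [Pi.smul_apply, h2, smul_zero]

private theorem nrm_unique {K : Type*} [Field K] {v : Fin m → K} {c : K} (hv : Nrm v)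
    (hc : Nrm (c • v)) : c = 1 := by
  obtain ⟨i, hi, hi'⟩ := hv
  obtain ⟨j, hj, hj'⟩ := hc
  rw [Pi.smul_apply, smul_eq_mul] at hj
  have hc0 : c ≠ 0 := by
    rintro rfl
    rw [zero_mul] at hj
    exact zero_ne_one hj
  rcases lt_trichotomy i j with h | h | h
  · have := hj' i h
    rw [Pi.smul_apply, smul_eq_mul, hi, mul_one] at this
    exact absurd this hc0
  · rw [← h, hi, mul_one] at hj
    exact hj
  · rw [hi' j h, mul_zero] at hj
    exact absurd hj zero_ne_one

private theorem nrm_ne {K : Type*} [Field K] {v : Fin m → K} (hv : Nrm v) : v ≠ 0 := by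
  rintro rfl
  obtain ⟨i, hi, -⟩ := hv
  exact zero_ne_one hi

/-- Normalised singular vectors. -/
private def SV (g : MvPolynomial (Fin m) k) : Set (Fin m → AlgebraicClosure k) :=
  {v | Nrm v ∧ ∀ i, aeval v (pderiv i g) = 0}

private theorem sv_image {g : MvPolynomial (Fin m) k} (hg : g.IsHomogeneous 3) :
    ∃ ν : Projectivization (AlgebraicClosure k) (Fin m → AlgebraicClosure k) →
      (Fin m → AlgebraicClosure k), Function.Injective ν ∧ ν '' SingPts g = SV g := by
  choose c hc hcn using fun P : Projectivization (AlgebraicClosure k) (Fin m → AlgebraicClosure k) =>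
    nrm_exists P.rep P.rep_nonzero
  refine ⟨fun P => c P • P.rep, ?_, ?_⟩
  · intro P Q hPQ
    have hPQ : c P • P.rep = c Q • Q.rep := hPQ
    have h1 : P.rep = ((c P)⁻¹ * c Q) • Q.rep := by
      rw [mul_smul, ← hPQ, smul_smul, inv_mul_cancel₀ (hc P), one_smul]
    rw [← P.mk_rep, ← Q.mk_rep, Projectivization.mk_eq_mk_iff']
    exact ⟨_, h1.symm⟩
  · ext v
    rw [Set.mem_image]
    constructor
    · rintro ⟨P, hP, rfl⟩
      exact ⟨hcn P, fun i => sing_smul hg hP (c P) i⟩
    · rintro ⟨hv, hs⟩
      have hv0 := nrm_ne hv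
      set P := Projectivization.mk (AlgebraicClosure k) v hv0 with hP
      obtain ⟨a, ha⟩ := Projectivization.exists_smul_eq_mk_rep (AlgebraicClosure k) v hv0
      have ha' : P.rep = (a : AlgebraicClosure k) • v := by
        rw [hP, ← ha]
        rfl
      refine ⟨P, ?_, ?_⟩
      · intro i
        rw [ha']
        exact sing_smul hg hs _ i
      · have h1 := hcn P
        rw [ha', smul_smul] at h1
        have h2 := nrm_unique hv h1
        show c P • P.rep = v
        rw [ha', smul_smul, h2, one_smul]

/-- A cubic form in at most six variables with exactly `N` singular points over the algebraic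
closure, `N ≤ 11` not divisible by three, or in any number of variables if `N ≤ 5`, has a zero. -/
theorem zero_of_count {g : MvPolynomial (Fin m) k} (hg : g.IsHomogeneous 3)
    (hfin : (SingPts g).Finite) (h3 : ¬ 3 ∣ (SingPts g).ncard)
    (hN : (SingPts g).ncard ≤ 5 ∨ m ≤ 6 ∧ (SingPts g).ncard ≤ 11) :
    ∃ z : Fin m → k, z ≠ 0 ∧ aeval z g = 0 := by
  obtain ⟨ν, hν, himg⟩ := sv_image hg
  have hcard : (SV g).ncard = (SingPts g).ncard := by
    rw [← himg, Set.ncard_image_of_injective _ hν]
  have hfinV : (SV g).Finite := by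
    rw [← himg]; exact hfin.image ν
  have hst : ∀ σ : AlgebraicClosure k ≃ₐ[k] AlgebraicClosure k, ∀ v ∈ SV g, σ • v ∈ SV g := by
    rintro σ v ⟨⟨i, hi, hi'⟩, hs⟩
    refine ⟨⟨i, ?_, fun j hj => ?_⟩, fun j => ?_⟩
    · show σ (v i) = 1
      rw [hi, map_one]
    · show σ (v j) = 0
      rw [hi' j hj, map_zero]
    · have h1 := aeval_comp (σ : AlgebraicClosure k →ₐ[k] AlgebraicClosure k) v (pderiv j g)
      rw [hs j, map_zero] at h1
      exact h1.symm
  obtain ⟨v, ⟨hv, hs⟩, hv3, hvN⟩ := exists_degree _ (SV g) hfinV hst hcard h3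
  set F := IntermediateField.adjoin k (Set.range v) with hF
  have hpos : Module.finrank k F ≠ 0 := by
    intro h
    rw [h] at hv3
    exact hv3 (dvd_zero 3)
  have hfd : FiniteDimensional k F := FiniteDimensional.of_finrank_pos (Nat.pos_of_ne_zero hpos)
  set w : Fin m → F := fun i => ⟨v i, IntermediateField.subset_adjoin k _ ⟨i, rfl⟩⟩ with hw
  have hwv : (fun i => algebraMap F (AlgebraicClosure k) (w i)) = v := rfl
  have hw0 : w ≠ 0 := by
    intro h
    apply nrm_ne hv
    funext i
    have := congrFun h i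
    exact congrArg (algebraMap F (AlgebraicClosure k)) this
  have hws : ∀ i, aeval w (pderiv i g) = 0 := by
    intro i
    have h4 := aeval_algebraMap_apply (AlgebraicClosure k) w (pderiv i g)
    have h5 : algebraMap F (AlgebraicClosure k) (aeval w (pderiv i g)) = 0 := by
      rw [← h4]; exact hs i
    exact (map_eq_zero_iff _ (algebraMap F (AlgebraicClosure k)).injective).1 h5
  by_cases h5 : Module.finrank k F ≤ 5
  · exact zero_of_sing_five hg w hw0 hws h5 (fun h => hv3 (h ▸ dvd_rfl))
  · have hm : m ≤ 6 := by omega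
    by_cases h8 : Module.finrank k F ≤ 8
    · refine zero_of_sing_subspace hg (Submodule.span F {w}) hv3 ?_ ?_
      · intro u hu i
        obtain ⟨c, rfl⟩ := Submodule.mem_span_singleton.1 hu
        exact sing_smul hg hws c i
      · rw [finrank_span_singleton hw0, mul_one]
        have h78 : Module.finrank k F = 7 ∨ Module.finrank k F = 8 := by omega
        rcases h78 with h | h
        · rw [h]; omega
        · rw [h]; omega
    · exact zero_of_ten_eleven hg w hw0 hws (by omega) (by omega)

end Pool.Agent.Cub
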