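import Pool.Agent.Cub.Quad

set_option autoImplicit false

/-! Polynomial curves with prescribed contact with a cubic hypersurface. -/

namespace Pool.Agent.Cub

open MvPolynomial

variable {k : Type*} [Field k] {n : ℕ}

/-- A polynomial curve of degree `e` which meets the cubic `f = 0` with multiplicity `a` in the
points given by the irreducible polynomial `m`, where `3 e ≤ a deg m + 2`. -/
theorem curve {f : MvPolynomial (Fin n) k} (hf : f.IsHomogeneous 3) {m : Polynomial k}
    (hm : Irreducible m) {a : ℕ} (h3 : ¬ 3 ∣ a * m.natDegree) (e : ℕ) :
    ∀ y : Fin n → Polynomial k, (∀ i, (y i).natDegree ≤ e) → 3 * e ≤ a * m.natDegree + 2 →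
      m ^ a ∣ aeval y f → (∃ i, ¬ m ∣ y i) → ∃ z : Fin n → k, z ≠ 0 ∧ aeval z f = 0 := by
  classical
  induction e using Nat.strong_induction_on with
  | _ e ih =>
    intro y hy he hdvd hne
    by_cases hq : ∃ q : Polynomial k, Irreducible q ∧ ∀ i, q ∣ y i
    · -- common factor
      obtain ⟨q, hqi, hqd⟩ := hq
      choose z hz using hqd
      obtain ⟨i0, hi0⟩ := hne
      have hmq : ¬ m ∣ q := fun h => hi0 ((h.trans (Dvd.intro _ (hz i0).symm)))
      have hqpos : 0 < q.natDegree := hqi.natDegree_pos
      have hq0 : q ≠ 0 := hqi.ne_zero
      have hepos : 0 < e := by
        have h1 : y i0 ≠ 0 := fun h => hi0 (h ▸ dvd_zero m)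
        have h2 := Polynomial.natDegree_le_of_dvd (Dvd.intro _ (hz i0).symm) h1
        have := hy i0
        omega
      refine ih (e - 1) (by omega) z ?_ (by omega) ?_ ⟨i0, fun h => hi0 ?_⟩
      · intro i
        by_cases hzi : z i = 0
        · rw [hzi]; simp
        · have h1 := hy i
          rw [hz i, Polynomial.natDegree_mul hq0 hzi] at h1
          omega
      · have h1 : aeval y f = q ^ 3 * aeval z f := by
          rw [← aeval_smul hf]
          congr 1
          congr 1
          funext i
          exact hz i
        rw [h1] at hdvd
        have hcop : IsCoprime (m ^ a) (q ^ 3) := by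
          apply IsCoprime.pow
          exact (hm.coprime_iff_not_dvd).2 hmq
        exact hcop.dvd_of_dvd_mul_left hdvd
      · rw [hz i0]
        exact h.mul_left q
    · push Not at hq
      by_cases htop : (fun i => (y i).coeff e) = 0
      · -- the degree can be lowered
        have htop' : ∀ i, (y i).coeff e = 0 := fun i => congrFun htop i
        by_cases he0 : e = 0
        · exfalso
          obtain ⟨i0, hi0⟩ := hne
          apply hi0
          have h1 : y i0 = 0 := by
            subst he0
            rw [Polynomial.eq_C_of_natDegree_eq_zero (Nat.le_zero.1 (hy i0)), htop' i0,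
              Polynomial.C_0]
          rw [h1]
          exact dvd_zero m
        · refine ih (e - 1) (by omega) y ?_ (by omega) hdvd hne
          intro i
          have h1 := hy i
          by_contra hlt
          push Not at hlt
          have h2 : (y i).natDegree = e := by omega
          have h4 : y i = 0 := by
            rw [← Polynomial.leadingCoeff_eq_zero, Polynomial.leadingCoeff, h2]
            exact htop' i
          rw [h4] at h2
          simp only [Polynomial.natDegree_zero] at h2
          exact he0 h2.symm
      · by_cases hft : aeval (fun i => (y i).coeff e) f = 0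
        · exact ⟨_, htop, hft⟩
        · obtain ⟨hd, hc⟩ := natDegree_aeval hf y e hy
          have hdeg : (aeval y f).natDegree = 3 * e := by
            apply le_antisymm hd
            by_contra hlt
            push Not at hlt
            rw [Polynomial.coeff_eq_zero_of_natDegree_lt hlt] at hc
            exact hft hc.symm
          have hP0 : aeval y f ≠ 0 := by
            intro h0
            rw [h0, Polynomial.coeff_zero] at hc
            exact hft hc.symm
          obtain ⟨g, hg⟩ := hdvd
          have hg0 : g ≠ 0 := by
            rintro rfl
            rw [mul_zero] at hg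
            exact hP0 hg
          have hgd : 3 * e = a * m.natDegree + g.natDegree := by
            rw [← hdeg, hg, Polynomial.natDegree_mul (pow_ne_zero _ hm.ne_zero) hg0,
              Polynomial.natDegree_pow]
          have hgpos : 0 < g.natDegree := by
            by_contra h0
            push Not at h0
            apply h3
            exact ⟨e, by omega⟩
          obtain ⟨q, hqi, hqg⟩ := Polynomial.exists_irreducible_of_natDegree_pos hgpos
          have hqdeg : q.natDegree ≤ 2 := by
            have := Polynomial.natDegree_le_of_dvd hqg hg0
            omega
          obtain ⟨i1, hi1⟩ := hq q hqi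
          have : Fact (Irreducible q) := ⟨hqi⟩
          have : FiniteDimensional k (AdjoinRoot q) :=
            (AdjoinRoot.powerBasis hqi.ne_zero).finite
          have hfin : Module.finrank k (AdjoinRoot q) ≤ 2 := by
            rw [(AdjoinRoot.powerBasis hqi.ne_zero).finrank, AdjoinRoot.powerBasis_dim]
            exact hqdeg
          refine descend_two hfin hf (x := fun i => Polynomial.aeval (AdjoinRoot.root q) (y i))
            ?_ ?_
          · intro h0
            apply hi1
            have h1 := congrFun h0 i1
            simp only [Pi.zero_apply] at h1
            rw [AdjoinRoot.aeval_eq, AdjoinRoot.mk_eq_zero] at h1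
            exact h1
          · rw [← aeval_comp (Polynomial.aeval (AdjoinRoot.root q)) y f, AdjoinRoot.aeval_eq,
              AdjoinRoot.mk_eq_zero, hg]
            exact hqg.mul_left _

end Pool.Agent.Cub
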