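import Pool.Agent.Cub.Contact

set_option autoImplicit false

/-! Linear algebra: points of a subspace over an extension, with coordinates of small degree. -/

namespace Pool.Agent.Cub

open MvPolynomial

variable {k : Type*} [Field k] [CharZero k] {n : ℕ}
  {L : Type*} [Field L] [Algebra k L] [FiniteDimensional k L]

/-- If `(d - 1 - e) n < d t` then a subspace of dimension `t` contains a nonzero vector whose
coordinates are polynomials of degree at most `e` in the generator `w` of degree `d`. -/
theorem exists_small {w : L} (hw : (minpoly k w).natDegree = Module.finrank k L)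
    (U : Submodule L (Fin n → L)) (e : ℕ)
    (h : (Module.finrank k L - 1 - e) * n < Module.finrank k L * Module.finrank L U) :
    ∃ u ∈ U, u ≠ 0 ∧ ∀ i, ∃ p : Polynomial k, p.natDegree ≤ e ∧ Polynomial.aeval w p = u i := by
  classical
  set d := Module.finrank k L with hd
  have hcard : Fintype.card (Fin (minpoly k w).natDegree) = Module.finrank k L := by
    rw [Fintype.card_fin, hw]
  have hdpos : 0 < d := Module.finrank_pos
  have hpos : 0 < (minpoly k w).natDegree := by rw [hw]; exact hdpos
  haveI : Nonempty (Fin (minpoly k w).natDegree) := ⟨⟨0, hpos⟩⟩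
  set b : Module.Basis (Fin (minpoly k w).natDegree) k L :=
    basisOfLinearIndependentOfCardEqFinrank (linearIndependent_pow w) hcard with hb
  have hbj : ∀ j, b j = w ^ (j : ℕ) := by
    intro j
    rw [hb, coe_basisOfLinearIndependentOfCardEqFinrank]
  -- the linear map
  set Ψ : (U.restrictScalars k) →ₗ[k] (Fin n × Fin (d - 1 - e) → k) :=
    { toFun := fun u q => b.repr ((u : Fin n → L) q.1)
        ⟨e + 1 + (q.2 : ℕ), by have := q.2.2; omega⟩
      map_add' := by
        intro u v
        funext q
        simp
      map_smul' := by
        intro c u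
        funext q
        simp } with hΨ
  have hlt : Module.finrank k (Fin n × Fin (d - 1 - e) → k)
      < Module.finrank k (U.restrictScalars k) := by
    have h1 : Module.finrank k (U.restrictScalars k) = d * Module.finrank L U :=
      (Module.finrank_mul_finrank k L U).symm
    rw [h1, Module.finrank_fintype_fun_eq_card, Fintype.card_prod, Fintype.card_fin,
      Fintype.card_fin, mul_comm n]
    exact h
  haveI : FiniteDimensional k (U.restrictScalars k) :=
    Module.Finite.trans (R := k) L U
  have hker := LinearMap.ker_ne_bot_of_finrank_lt (f := Ψ) hlt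
  obtain ⟨u, hu, hune⟩ := (Submodule.ne_bot_iff _).1 hker
  refine ⟨(u : Fin n → L), u.2, ?_, ?_⟩
  · intro h0
    exact hune (Subtype.ext h0)
  · intro i
    rw [LinearMap.mem_ker] at hu
    refine ⟨∑ j : Fin (minpoly k w).natDegree,
      Polynomial.C (b.repr ((u : Fin n → L) i) j) * Polynomial.X ^ (j : ℕ), ?_, ?_⟩
    · refine Polynomial.natDegree_sum_le_of_forall_le _ _ fun j _ => ?_
      by_cases hj : (j : ℕ) ≤ e
      · exact (Polynomial.natDegree_C_mul_X_pow_le _ _).trans hj
      · push Not at hj
        have h2 : b.repr ((u : Fin n → L) i) j = 0 := by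
          have h3 := congrFun hu (i, ⟨(j : ℕ) - (e + 1), by have := j.2; omega⟩)
          simp only [hΨ, LinearMap.coe_mk, AddHom.coe_mk, Pi.zero_apply] at h3
          rw [← h3]
          congr 1
          apply Fin.ext
          simp only
          omega
        rw [h2]
        simp
    · rw [map_sum]
      conv_rhs => rw [← b.sum_repr ((u : Fin n → L) i)]
      refine Finset.sum_congr rfl fun j _ => ?_
      rw [map_mul, map_pow, Polynomial.aeval_C, Polynomial.aeval_X, hbj, Algebra.smul_def]

/-- A cubic form which vanishes on a large subspace over an extension of degree not divisible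
by three. -/
theorem zero_of_subspace {f : MvPolynomial (Fin n) k} (hf : f.IsHomogeneous 3)
    (U : Submodule L (Fin n → L)) (h3 : ¬ 3 ∣ Module.finrank k L)
    (hU : ∀ u ∈ U, aeval u f = 0)
    (h : (Module.finrank k L - 1 - (Module.finrank k L + 2) / 3) * n
      < Module.finrank k L * Module.finrank L U) :
    ∃ z : Fin n → k, z ≠ 0 ∧ aeval z f = 0 := by
  obtain ⟨w, hw⟩ := Field.exists_primitive_element k L
  rw [Field.primitive_element_iff_minpoly_natDegree_eq] at hw
  obtain ⟨u, huU, hune, hp⟩ := exists_small hw U _ h
  exact contact_one hf hune (hU u huU) hp (by rw [hw]; exact h3) (by rw [hw]; omega)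

/-- A cubic form which is singular along a large subspace over an extension of degree not
divisible by three. -/
theorem zero_of_sing_subspace {f : MvPolynomial (Fin n) k} (hf : f.IsHomogeneous 3)
    (U : Submodule L (Fin n → L)) (h3 : ¬ 3 ∣ Module.finrank k L)
    (hU : ∀ u ∈ U, ∀ i, aeval u (pderiv i f) = 0)
    (h : (Module.finrank k L - 1 - (2 * Module.finrank k L + 2) / 3) * n
      < Module.finrank k L * Module.finrank L U) :
    ∃ z : Fin n → k, z ≠ 0 ∧ aeval z f = 0 := by
  obtain ⟨w, hw⟩ := Field.exists_primitive_element k L
  rw [Field.primitive_element_iff_minpoly_natDegree_eq] at hw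
  obtain ⟨u, huU, hune, hp⟩ := exists_small hw U _ h
  exact contact_two hf hune (hU u huU) hp (by rw [hw]; exact h3) (by rw [hw]; omega)

end Pool.Agent.Cub
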