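import Pool.Agent.Cub.Ten

set_option autoImplicit false

/-! Finite Galois-stable sets of vectors over the algebraic closure. -/

namespace Pool.Agent.Cub

open MvPolynomial

variable {k : Type*} [Field k] [CharZero k] {m : ℕ}

/-- The degree of the field generated by the coordinates is the size of the Galois orbit. -/
theorem finrank_adjoin_range (v : Fin m → AlgebraicClosure k) :
    Module.finrank k (IntermediateField.adjoin k (Set.range v))
      = (MulAction.orbit (AlgebraicClosure k ≃ₐ[k] AlgebraicClosure k) v).ncard := by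
  have hst : MulAction.stabilizer (AlgebraicClosure k ≃ₐ[k] AlgebraicClosure k) v
      = (IntermediateField.adjoin k (Set.range v)).fixingSubgroup := by
    ext σ
    rw [MulAction.mem_stabilizer_iff, IntermediateField.mem_fixingSubgroup_iff]
    constructor
    · intro h x hx
      induction hx using IntermediateField.adjoin_induction with
      | mem x hx =>
        obtain ⟨i, rfl⟩ := hx
        exact congrFun h i
      | algebraMap x => exact σ.commutes x
      | add x y _ _ hx hy => rw [map_add, hx, hy]
      | inv x _ hx => rw [map_inv₀, hx]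
      | mul x y _ _ hx hy => rw [map_mul, hx, hy]
    · intro h
      funext i
      exact h (v i) (IntermediateField.subset_adjoin k _ ⟨i, rfl⟩)
  rw [IntermediateField.finrank_eq_fixingSubgroup_index, ← hst, MulAction.index_stabilizer]

/-- A finite Galois-stable set whose size is not divisible by three contains a vector of degree
not divisible by three. -/
theorem exists_degree (N : ℕ) : ∀ V : Set (Fin m → AlgebraicClosure k), V.Finite →
    (∀ σ : AlgebraicClosure k ≃ₐ[k] AlgebraicClosure k, ∀ v ∈ V, σ • v ∈ V) → V.ncard = N →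
    ¬ 3 ∣ N → ∃ v ∈ V, ¬ 3 ∣ Module.finrank k (IntermediateField.adjoin k (Set.range v)) ∧
      Module.finrank k (IntermediateField.adjoin k (Set.range v)) ≤ N := by
  induction N using Nat.strong_induction_on with
  | _ N ih =>
    intro V hfin hst hN h3
    have hne : V.Nonempty := by
      rw [Set.nonempty_iff_ne_empty]
      rintro rfl
      rw [Set.ncard_empty] at hN
      exact h3 (hN ▸ dvd_zero 3)
    obtain ⟨v, hv⟩ := hne
    have hsub : MulAction.orbit (AlgebraicClosure k ≃ₐ[k] AlgebraicClosure k) v ⊆ V := by
      rintro _ ⟨σ, rfl⟩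
      exact hst σ v hv
    have hle := Set.ncard_le_ncard hsub hfin
    have hfr := finrank_adjoin_range v
    by_cases h : 3 ∣ (MulAction.orbit (AlgebraicClosure k ≃ₐ[k] AlgebraicClosure k) v).ncard
    · have hpos : 0 < (MulAction.orbit (AlgebraicClosure k ≃ₐ[k] AlgebraicClosure k) v).ncard := by
        rw [Set.ncard_pos (hfin.subset hsub)]
        exact MulAction.nonempty_orbit v
      have hdiff := Set.ncard_sdiff_add_ncard_of_subset hsub hfin
      have hst' : ∀ σ : AlgebraicClosure k ≃ₐ[k] AlgebraicClosure k,
          ∀ w ∈ V \ MulAction.orbit (AlgebraicClosure k ≃ₐ[k] AlgebraicClosure k) v,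
          σ • w ∈ V \ MulAction.orbit (AlgebraicClosure k ≃ₐ[k] AlgebraicClosure k) v := by
        rintro σ w ⟨hwV, hwo⟩
        refine ⟨hst σ w hwV, fun hmem => hwo ?_⟩
        obtain ⟨τ, hτ⟩ := hmem
        refine ⟨σ⁻¹ * τ, ?_⟩
        have hτ' : τ • v = σ • w := hτ
        show (σ⁻¹ * τ) • v = w
        rw [mul_smul, hτ', inv_smul_smul]
      have h34 : ¬ 3 ∣ (V \ MulAction.orbit (AlgebraicClosure k ≃ₐ[k] AlgebraicClosure k) v).ncard := by
        intro h4
        apply h3
        rw [← hN, ← hdiff]
        exact dvd_add h4 h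
      obtain ⟨w, hw, hw3, hwN⟩ := ih _ (by omega)
        (V \ MulAction.orbit (AlgebraicClosure k ≃ₐ[k] AlgebraicClosure k) v)
        (hfin.subset Set.sdiff_subset) hst' rfl h34
      exact ⟨w, hw.1, hw3, by omega⟩
    · exact ⟨v, hv, by rw [hfr]; exact h, by rw [hfr]; omega⟩

end Pool.Agent.Cub
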