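import Mathlib

set_option autoImplicit false

/-! Evaluation of forms at vectors of polynomials in one variable. -/

namespace Pool.Agent.Cub

open MvPolynomial

variable {k : Type*} [CommRing k] {n : ℕ}

/-- Homogeneity of evaluation. -/
theorem aeval_smul {R : Type*} [CommRing R] [Algebra k R] {f : MvPolynomial (Fin n) k} {N : ℕ}
    (hf : f.IsHomogeneous N) (c : R) (x : Fin n → R) :
    aeval (fun i => c * x i) f = c ^ N * aeval x f := by
  rw [aeval_def, eval₂_eq', aeval_def, eval₂_eq', Finset.mul_sum]
  refine Finset.sum_congr rfl fun s hs => ?_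
  have hN : ∑ i, s i = N := by
    have h := hf (mem_support_iff.mp hs)
    rw [Finsupp.weight_apply, Finsupp.sum_fintype] at h
    · simpa using h
    · intro i; simp
  simp only [mul_pow, Finset.prod_mul_distrib, Finset.prod_pow_eq_pow_sum, hN]
  ring

/-- Chain rule. -/
theorem derivative_aeval (f : MvPolynomial (Fin n) k) (y : Fin n → Polynomial k) :
    Polynomial.derivative (aeval y f)
      = ∑ i, aeval y (pderiv i f) * Polynomial.derivative (y i) := by
  classical
  induction f using MvPolynomial.induction_on with
  | C a => simp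
  | add p q hp hq => simp only [map_add, hp, hq, add_mul, Finset.sum_add_distrib]
  | mul_X p j hp =>
    have h1 : ∀ i, aeval y (pderiv i (p * X j)) * Polynomial.derivative (y i)
        = (aeval y (pderiv i p) * Polynomial.derivative (y i)) * y j
          + (if i = j then aeval y p * Polynomial.derivative (y j) else 0) := by
      intro i
      rw [pderiv_mul, map_add, map_mul, map_mul, aeval_X, pderiv_X]
      by_cases hij : i = j
      · subst hij
        simp only [Pi.single_eq_same, map_one, if_true]
        ring
      · have h2 : (Pi.single j (1 : MvPolynomial (Fin n) k) : Fin n → MvPolynomial (Fin n) k) i = 0 :=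
          Pi.single_eq_of_ne hij 1
        rw [if_neg hij]
        first
          | rw [h2]
          | rw [Pi.single_eq_of_ne (Ne.symm hij) 1]
        simp only [map_zero]
        ring
    rw [Finset.sum_congr rfl fun i _ => h1 i, Finset.sum_add_distrib, ← Finset.sum_mul, ← hp,
      Finset.sum_ite_eq' Finset.univ j, if_pos (Finset.mem_univ j), map_mul, aeval_X,
      Polynomial.derivative_mul]

private theorem poly_prod (y : Fin n → Polynomial k) (e : ℕ) (hy : ∀ i, (y i).natDegree ≤ e)
    (s : Fin n → ℕ) (t : Finset (Fin n)) :
    (∏ i ∈ t, y i ^ s i).natDegree ≤ (∑ i ∈ t, s i) * e ∧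
      (∏ i ∈ t, y i ^ s i).coeff ((∑ i ∈ t, s i) * e) = ∏ i ∈ t, ((y i).coeff e) ^ s i := by
  classical
  induction t using Finset.induction_on with
  | empty => simp
  | insert a t ha ih =>
    rw [Finset.prod_insert ha, Finset.sum_insert ha, Finset.prod_insert ha, add_mul]
    have h1 : (y a ^ s a).natDegree ≤ s a * e :=
      Polynomial.natDegree_pow_le_of_le (s a) (hy a)
    refine ⟨Polynomial.natDegree_mul_le_of_le h1 ih.1, ?_⟩
    rw [Polynomial.coeff_mul_add_eq_of_natDegree_le h1 ih.1, ih.2, Polynomial.coeff_pow_of_natDegree_le (hy a)]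

/-- Degree and top coefficient of the value of a form at a vector of polynomials. -/
theorem natDegree_aeval {f : MvPolynomial (Fin n) k} {N : ℕ} (hf : f.IsHomogeneous N)
    (y : Fin n → Polynomial k) (e : ℕ) (hy : ∀ i, (y i).natDegree ≤ e) :
    (aeval y f).natDegree ≤ N * e ∧
      (aeval y f).coeff (N * e) = aeval (fun i => (y i).coeff e) f := by
  have key : ∀ s ∈ f.support, ∑ i, s i = N := by
    intro s hs
    have h := hf (mem_support_iff.mp hs)
    rw [Finsupp.weight_apply, Finsupp.sum_fintype] at h
    · simpa using h
    · intro i; simp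
  constructor
  · rw [aeval_def, eval₂_eq']
    refine Polynomial.natDegree_sum_le_of_forall_le _ _ fun s hs => ?_
    have h := (poly_prod y e hy s Finset.univ).1
    rw [key s hs] at h
    exact (Polynomial.natDegree_C_mul_le _ _).trans h
  · rw [aeval_def, eval₂_eq', aeval_def, eval₂_eq', Polynomial.finsetSum_coeff]
    refine Finset.sum_congr rfl fun s hs => ?_
    have h := (poly_prod y e hy s Finset.univ).2
    rw [key s hs] at h
    rw [← Polynomial.C_eq_algebraMap, Polynomial.coeff_C_mul, h, Algebra.algebraMap_self_apply]

/-- Values commute with ring homomorphisms. -/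
theorem aeval_comp {A B : Type*} [CommRing A] [CommRing B] [Algebra k A] [Algebra k B]
    (φ : A →ₐ[k] B) (x : Fin n → A) (f : MvPolynomial (Fin n) k) :
    φ (aeval x f) = aeval (fun i => φ (x i)) f := by
  rw [← comp_aeval_apply]

end Pool.Agent.Cub
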