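import Pool.Agent.Cub.Poly

set_option autoImplicit false

/-! A cubic form with a zero in an extension of degree at most two has a zero. -/

namespace Pool.Agent.Cub

open MvPolynomial

variable {k : Type*} [Field k] {n : ℕ}

/-- In an extension of degree at most two every element is `a + b w`, for `w` outside the base. -/
theorem pair_span {E : Type*} [Field E] [Algebra k E] [FiniteDimensional k E]
    (h2 : Module.finrank k E ≤ 2) {w : E} (hw : ∀ a : k, algebraMap k E a ≠ w) (u : E) :
    ∃ a b : k, u = algebraMap k E a + algebraMap k E b * w := by
  have hindep : LinearIndependent k ![(1 : E), w] := by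
    rw [LinearIndependent.pair_iff]
    intro s t hst
    have ht : t = 0 := by
      by_contra ht
      apply hw (-(s / t))
      have htE : (algebraMap k E t) ≠ 0 := by
        intro h; exact ht ((map_eq_zero_iff _ (algebraMap k E).injective).1 h)
      rw [Algebra.smul_def, Algebra.smul_def, mul_one] at hst
      rw [map_neg, map_div₀]
      field_simp
      linear_combination (-1 : E) * hst
    subst ht
    rw [zero_smul, add_zero, Algebra.smul_def, mul_one] at hst
    exact ⟨(map_eq_zero_iff _ (algebraMap k E).injective).1 hst, rfl⟩
  have hcard : Fintype.card (Fin 2) = Module.finrank k E := by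
    have := hindep.fintype_card_le_finrank
    rw [Fintype.card_fin] at this ⊢
    omega
  have htop := hindep.span_eq_top_of_card_eq_finrank' hcard
  have hu : u ∈ Submodule.span k (Set.range ![(1 : E), w]) := by
    rw [htop]; trivial
  rw [Matrix.range_cons, Matrix.range_cons, Matrix.range_empty, Set.union_empty] at hu
  have hu' : u ∈ Submodule.span k ({(1 : E), w} : Set E) := hu
  rw [Submodule.mem_span_pair] at hu'
  obtain ⟨a, b, hab⟩ := hu'
  exact ⟨a, b, by rw [← hab, Algebra.smul_def, Algebra.smul_def, mul_one]⟩

/-- Descent along an extension generated by one element of degree at most two. -/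
theorem descend_two {E : Type*} [Field E] [Algebra k E] [FiniteDimensional k E]
    (h2 : Module.finrank k E ≤ 2) {f : MvPolynomial (Fin n) k} (hf : f.IsHomogeneous 3)
    {x : Fin n → E} (hx : x ≠ 0) (hfx : aeval x f = 0) :
    ∃ z : Fin n → k, z ≠ 0 ∧ aeval z f = 0 := by
  classical
  by_cases hsurj : ∀ u : E, ∃ a : k, algebraMap k E a = u
  · choose a ha using hsurj
    refine ⟨fun i => a (x i), ?_, ?_⟩
    · intro h0
      apply hx
      funext i
      have := congrFun h0 i
      simp only [Pi.zero_apply] at this
      rw [← ha (x i), this, map_zero, Pi.zero_apply]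
    · have h1 := aeval_algebraMap_apply E (fun i => a (x i)) f
      have h3 : (fun i => algebraMap k E (a (x i))) = x := by
        funext i; exact ha (x i)
      have h2' : algebraMap k E (aeval (fun i => a (x i)) f) = 0 := by
        rw [← h1]
        exact (congrArg (fun y => aeval y f) h3).trans hfx
      exact (map_eq_zero_iff _ (algebraMap k E).injective).1 h2'
  · push Not at hsurj
    obtain ⟨w, hw⟩ := hsurj
    have hint : IsIntegral k w := Algebra.IsIntegral.isIntegral w
    choose a b hab using fun i => pair_span h2 hw (x i)
    by_cases hb : b = 0
    · refine ⟨a, ?_, ?_⟩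
      · intro ha
        apply hx
        funext i
        rw [hab i, ha, hb]
        simp
      · have h1 := aeval_algebraMap_apply E a f
        have h3 : (algebraMap k E ∘ a) = x := by
          funext i
          rw [hab i, hb]
          simp
        rw [h3, hfx] at h1
        exact (map_eq_zero_iff _ (algebraMap k E).injective).1 h1.symm
    by_cases hfb : aeval b f = 0
    · exact ⟨b, hb, hfb⟩
    -- the cubic polynomial
    set y : Fin n → Polynomial k := fun i => Polynomial.C (a i) + Polynomial.C (b i) * Polynomial.X
      with hy
    have hydeg : ∀ i, (y i).natDegree ≤ 1 := by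
      intro i
      rw [hy]
      exact (Polynomial.natDegree_add_le_of_degree_le (by simp)
        (Polynomial.natDegree_C_mul_le _ _ |>.trans Polynomial.natDegree_X_le))
    have hcoef : (fun i => (y i).coeff 1) = b := by
      funext i
      simp [hy, Polynomial.coeff_C]
    obtain ⟨hd, hc⟩ := natDegree_aeval hf y 1 hydeg
    rw [hcoef, mul_one] at hc
    rw [mul_one] at hd
    set P := aeval y f with hP
    have hP3 : P.natDegree = 3 := by
      apply le_antisymm hd
      by_contra hlt
      push Not at hlt
      rw [Polynomial.coeff_eq_zero_of_natDegree_lt hlt] at hc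
      exact hfb hc.symm
    have hPw : Polynomial.aeval w P = 0 := by
      rw [hP, aeval_comp (Polynomial.aeval w) y f]
      have : (fun i => Polynomial.aeval w (y i)) = x := by
        funext i
        rw [hab i]
        simp [hy]
      rw [this, hfx]
    have hdvd : minpoly k w ∣ P := minpoly.dvd k w hPw
    obtain ⟨g, hg⟩ := hdvd
    have hq2 : (minpoly k w).natDegree = 2 := by
      apply le_antisymm
      · exact (minpoly.natDegree_le w).trans h2
      · by_contra hlt
        push Not at hlt
        have h1 : (minpoly k w).natDegree = 1 := by
          have := minpoly.natDegree_pos hint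
          omega
        rw [minpoly.natDegree_eq_one_iff] at h1
        obtain ⟨c, hc'⟩ := h1
        exact hw c hc'
    have hP0 : P ≠ 0 := by
      intro h0
      rw [h0] at hP3
      simp at hP3
    have hg0 : g ≠ 0 := by
      rintro rfl
      rw [mul_zero] at hg
      exact hP0 hg
    have hg1 : g.natDegree = 1 := by
      have := congrArg Polynomial.natDegree hg
      rw [Polynomial.natDegree_mul (minpoly.ne_zero hint) hg0, hP3, hq2] at this
      omega
    obtain ⟨t, ht⟩ := Polynomial.exists_root_of_degree_eq_one
      (by rw [Polynomial.degree_eq_natDegree hg0, hg1]; rfl : g.degree = 1)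
    have hPt : Polynomial.aeval t P = 0 := by
      rw [hg, map_mul]
      have : Polynomial.aeval t g = 0 := by
        rw [Polynomial.coe_aeval_eq_eval]; exact ht
      rw [this, mul_zero]
    rw [hP, aeval_comp (Polynomial.aeval t) y f] at hPt
    refine ⟨_, ?_, hPt⟩
    intro h0
    apply hfb
    have hai : ∀ i, a i = -(t * b i) := by
      intro i
      have := congrFun h0 i
      simp only [hy, Pi.zero_apply, map_add, map_mul, Polynomial.aeval_C, Polynomial.aeval_X,
        Algebra.algebraMap_self_apply] at this
      linear_combination this
    have hxb : x = fun i => (w - algebraMap k E t) * algebraMap k E (b i) := by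
      funext i
      rw [hab i, hai i, map_neg, map_mul]
      ring
    rw [hxb, aeval_smul hf] at hfx
    have hwt : (w - algebraMap k E t) ^ 3 ≠ 0 := by
      apply pow_ne_zero
      intro h
      exact hw t (sub_eq_zero.1 h).symm
    have h4 : aeval (fun i => algebraMap k E (b i)) f = 0 :=
      (mul_eq_zero.1 hfx).resolve_left hwt
    have h1 := aeval_algebraMap_apply E b f
    have h5 : algebraMap k E (aeval b f) = 0 := by
      rw [← h1]; exact h4
    exact (map_eq_zero_iff _ (algebraMap k E).injective).1 h5

end Pool.Agent.Cub
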