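import Pool.Agent.Cub.Count

set_option autoImplicit false

/-! Sections of cubic hypersurfaces by linear subspaces. -/

namespace Pool.Agent.Cub

open MvPolynomial

section
variable {k : Type*} [CommRing k] {n r : ℕ}

/-- Chain rule for derivations. -/
theorem derivation_aeval {R : Type*} [CommRing R] [Algebra k R] (D : Derivation k R R)
    (f : MvPolynomial (Fin n) k) (y : Fin n → R) :
    D (aeval y f) = ∑ i, aeval y (pderiv i f) * D (y i) := by
  classical
  induction f using MvPolynomial.induction_on with
  | C a => simp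
  | add p q hp hq => simp only [map_add, hp, hq, add_mul, Finset.sum_add_distrib]
  | mul_X p j hp =>
    have h1 : ∀ i, aeval y (pderiv i (p * X j)) * D (y i)
        = (aeval y (pderiv i p) * D (y i)) * y j
          + (if i = j then aeval y p * D (y j) else 0) := by
      intro i
      rw [pderiv_mul, map_add, map_mul, map_mul, aeval_X, pderiv_X]
      by_cases hij : i = j
      · subst hij
        simp only [Pi.single_eq_same, map_one, if_true]
        ring
      · rw [if_neg hij, Pi.single_eq_of_ne (Ne.symm hij) 1]
        simp only [map_zero]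
        ring
    rw [Finset.sum_congr rfl fun i _ => h1 i, Finset.sum_add_distrib, ← Finset.sum_mul, ← hp,
      Finset.sum_ite_eq' Finset.univ j, if_pos (Finset.mem_univ j), map_mul, aeval_X,
      Derivation.leibniz, smul_eq_mul, smul_eq_mul]
    ring

/-- The form `f` on the subspace parametrised by the matrix `A`. -/
noncomputable def sec (A : Matrix (Fin n) (Fin r) k) (f : MvPolynomial (Fin n) k) :
    MvPolynomial (Fin r) k := aeval (fun i => ∑ j, C (A i j) * X j) f

theorem sec_homog (A : Matrix (Fin n) (Fin r) k) {f : MvPolynomial (Fin n) k} {N : ℕ}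
    (hf : f.IsHomogeneous N) : (sec A f).IsHomogeneous N := by
  have h := hf.aeval (fun i => ∑ j, C (A i j) * X j)
    (fun i => IsHomogeneous.sum _ _ 1 (fun j _ => isHomogeneous_C_mul_X (A i j) j))
  rwa [one_mul] at h

variable {R : Type*} [CommRing R] [Algebra k R]

theorem aeval_sec (A : Matrix (Fin n) (Fin r) k) (f : MvPolynomial (Fin n) k) (z : Fin r → R) :
    aeval z (sec A f) = aeval (fun i => ∑ j, algebraMap k R (A i j) * z j) f := by
  unfold sec
  rw [aeval_comp (aeval z) _ f]
  congr 2
  funext i
  rw [map_sum]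
  refine Finset.sum_congr rfl fun j _ => ?_
  rw [map_mul, aeval_C, aeval_X]

theorem sec_sing (A : Matrix (Fin n) (Fin r) k) (f : MvPolynomial (Fin n) k) (z : Fin r → R)
    (h : ∀ i, aeval (fun i => ∑ j, algebraMap k R (A i j) * z j) (pderiv i f) = 0) (j : Fin r) :
    aeval z (pderiv j (sec A f)) = 0 := by
  unfold sec
  rw [derivation_aeval (pderiv j) f, map_sum]
  refine Finset.sum_eq_zero fun i _ => ?_
  rw [map_mul]
  have h1 := aeval_sec A (pderiv i f) z
  unfold sec at h1
  rw [h1, h i, zero_mul]

end

section
variable {k : Type*} [Field k] [CharZero k] {n : ℕ}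
  {L : Type*} [Field L] [Algebra k L] [FiniteDimensional k L]

/-- The main theorem over a base field `k` over which no descent is needed. -/
theorem zero_general {f : MvPolynomial (Fin n) k} (hf : f.IsHomogeneous 3)
    (S : Submodule k (Fin n → k)) (U : Submodule L (Fin n → L)) (hU0 : U ≠ ⊥)
    (hUS : ∀ u ∈ U, u ∈ Submodule.span L
      ((fun (s : Fin n → k) (i : Fin n) => algebraMap k L (s i)) '' (S : Set (Fin n → k))))
    (h3 : ¬ 3 ∣ Module.finrank k L)
    (h : ((∀ u ∈ U, aeval u f = 0) ∧
        (Module.finrank k L - 1 - (Module.finrank k L + 2) / 3) * Module.finrank k S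
          < Module.finrank k L * Module.finrank L U) ∨
      ((∀ u ∈ U, ∀ i, aeval u (pderiv i f) = 0) ∧
        ((Module.finrank k L - 1 - (2 * Module.finrank k L + 2) / 3) * Module.finrank k S
            < Module.finrank k L * Module.finrank L U ∨
          ((Module.finrank k L = 10 ∨ Module.finrank k L = 11) ∧
            Module.finrank k S + 2 ≤ Module.finrank k L)))) :
    ∃ z : Fin n → k, z ≠ 0 ∧ aeval z f = 0 := by
  classical
  set r := Module.finrank k S with hr
  -- a matrix parametrising `S`, and a left inverse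
  set b : Module.Basis (Fin r) k S := Module.finBasis k S with hb
  set A : Matrix (Fin n) (Fin r) k := fun i j => (b j : Fin n → k) i with hA
  have hAapp : ∀ c : Fin r → k, A.mulVec c = ((∑ j, c j • b j : S) : Fin n → k) := by
    intro c
    funext i
    rw [Matrix.mulVec, dotProduct, Submodule.coe_sum, Finset.sum_apply]
    refine Finset.sum_congr rfl fun j _ => ?_
    rw [Submodule.coe_smul, Pi.smul_apply, smul_eq_mul, mul_comm]
  have hAinj : Function.Injective A.toLin' := by
    rw [injective_iff_map_eq_zero]
    intro c hc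
    rw [Matrix.toLin'_apply, hAapp] at hc
    have h1 : (∑ j, c j • b j : S) = 0 := Subtype.ext hc
    exact funext fun j => (Fintype.linearIndependent_iff.1 b.linearIndependent) c h1 j
  obtain ⟨B, hB⟩ := LinearMap.exists_leftInverse_of_injective A.toLin'
    (LinearMap.ker_eq_bot.2 hAinj)
  have hBA : LinearMap.toMatrix' B * A = 1 := by
    have h1 := congrArg LinearMap.toMatrix' hB
    rwa [LinearMap.toMatrix'_comp, LinearMap.toMatrix'_toLin', LinearMap.toMatrix'_id] at h1
  set A' : Matrix (Fin n) (Fin r) L := A.map (algebraMap k L) with hA'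
  set B' : Matrix (Fin r) (Fin n) L := (LinearMap.toMatrix' B).map (algebraMap k L) with hB'
  have hBA' : B' * A' = 1 := by
    rw [hB', hA', ← Matrix.map_mul, hBA, Matrix.map_one _ (map_zero _) (map_one _)]
  have hA'inj : Function.Injective A'.toLin' := by
    intro x y hxy
    rw [Matrix.toLin'_apply, Matrix.toLin'_apply] at hxy
    have h1 := congrArg (B'.mulVec) hxy
    rwa [Matrix.mulVec_mulVec, Matrix.mulVec_mulVec, hBA', Matrix.one_mulVec,
      Matrix.one_mulVec] at h1
  have hA'app : ∀ z : Fin r → L, A'.toLin' z = fun i => ∑ j, algebraMap k L (A i j) * z j := by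
    intro z
    rfl
  have hrange : ∀ u ∈ U, ∃ z, A'.toLin' z = u := by
    intro u hu
    have h1 : Submodule.span L
        ((fun (s : Fin n → k) (i : Fin n) => algebraMap k L (s i)) '' (S : Set (Fin n → k)))
        ≤ LinearMap.range A'.toLin' := by
      rw [Submodule.span_le]
      rintro _ ⟨s, hs, rfl⟩
      refine ⟨fun j => algebraMap k L (b.repr ⟨s, hs⟩ j), ?_⟩
      rw [hA'app]
      funext i
      have h2 := congrArg (fun x : S => (x : Fin n → k) i) (b.sum_repr ⟨s, hs⟩)
      simp only [Submodule.coe_sum, Finset.sum_apply, Submodule.coe_smul, Pi.smul_apply,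
        smul_eq_mul] at h2
      show ∑ j, algebraMap k L (A i j) * algebraMap k L (b.repr ⟨s, hs⟩ j) = algebraMap k L (s i)
      rw [← h2, map_sum]
      refine Finset.sum_congr rfl fun j _ => ?_
      rw [← map_mul, mul_comm]
    exact h1 (hUS u hu)
  set U' : Submodule L (Fin r → L) := U.comap A'.toLin' with hU'
  have hfr : Module.finrank L U' = Module.finrank L U := by
    have h1 : U'.map A'.toLin' = U := by
      rw [hU', Submodule.map_comap_eq, inf_eq_right]
      intro u hu
      exact hrange u hu
    rw [← h1]
    exact (Submodule.equivMapOfInjective A'.toLin' hA'inj U').finrank_eq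
  -- it suffices to find a zero of the section
  suffices hsuff : ∃ z : Fin r → k, z ≠ 0 ∧ aeval z (sec A f) = 0 by
    obtain ⟨z, hz, hfz⟩ := hsuff
    rw [aeval_sec] at hfz
    refine ⟨_, ?_, hfz⟩
    intro h0
    apply hz
    apply hAinj
    rw [map_zero, Matrix.toLin'_apply]
    exact h0
  have hg := sec_homog A hf
  rcases h with ⟨hU, hlt⟩ | ⟨hU, hlt | ⟨hd, hn⟩⟩
  · refine zero_of_subspace (L := L) hg U' h3 ?_ (by rw [hfr]; exact hlt)
    intro z hz
    rw [aeval_sec]
    exact hU _ hz
  · refine zero_of_sing_subspace (L := L) hg U' h3 ?_ (by rw [hfr]; exact hlt)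
    intro z hz
    exact sec_sing A f z (hU _ hz)
  · obtain ⟨u, hu, hu0⟩ := (Submodule.ne_bot_iff U).1 hU0
    obtain ⟨z, hz⟩ := hrange u hu
    refine zero_of_ten_eleven (L := L) hg z ?_ ?_ hd hn
    · rintro rfl
      rw [map_zero] at hz
      exact hu0 hz.symm
    · refine sec_sing A f z (hU _ ?_)
      have h1 : A'.toLin' z ∈ U := by rw [hz]; exact hu
      exact h1

end

end Pool.Agent.Cub
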