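import Pool.Agent.Cub.Lin

set_option autoImplicit false

/-! Singular points over extensions of degree ten and eleven. -/

namespace Pool.Agent.Cub

open MvPolynomial

variable {k : Type*} [Field k] [CharZero k] {n : ℕ}
  {L : Type*} [Field L] [Algebra k L] [FiniteDimensional k L]

/-- A vector which is orthogonal to `1` and `w` under a nonzero functional is proportional to one
with coordinates of degree at most `d - 3` in the generator `w` of degree `d`. -/
theorem two_functionals {w : L} (hw : (minpoly k w).natDegree = Module.finrank k L)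
    (hd : 3 ≤ Module.finrank k L) (φ : L →ₗ[k] k) (hφ : φ ≠ 0) (u : Fin n → L)
    (h0 : ∀ i, φ (u i) = 0) (h1 : ∀ i, φ (w * u i) = 0) :
    ∃ c : L, c ≠ 0 ∧ ∀ i, ∃ p : Polynomial k, p.natDegree ≤ Module.finrank k L - 3 ∧
      Polynomial.aeval w p = c * u i := by
  classical
  have hcard : Fintype.card (Fin (minpoly k w).natDegree) = Module.finrank k L := by
    rw [Fintype.card_fin, hw]
  have hpos : 0 < (minpoly k w).natDegree := by rw [hw]; omega
  have hne : Nonempty (Fin (minpoly k w).natDegree) := ⟨⟨0, hpos⟩⟩
  set b : Module.Basis (Fin (minpoly k w).natDegree) k L :=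
    basisOfLinearIndependentOfCardEqFinrank (linearIndependent_pow w) hcard with hb
  have hbj : ∀ j, b j = w ^ (j : ℕ) := by
    intro j
    rw [hb, coe_basisOfLinearIndependentOfCardEqFinrank]
  set last : Fin (minpoly k w).natDegree := ⟨(minpoly k w).natDegree - 1, by omega⟩ with hlast
  set prev : Fin (minpoly k w).natDegree := ⟨(minpoly k w).natDegree - 2, by omega⟩ with hprev
  -- the functional `b.coord last` is `φ (g * ·)`
  set Λ : L →ₗ[k] Module.Dual k L :=
    LinearMap.mk₂ k (fun g x => φ (g * x)) (fun a a' x => by rw [add_mul, map_add])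
      (fun c a x => by rw [smul_mul_assoc, map_smul]) (fun a x x' => by rw [mul_add, map_add])
      (fun c a x => by rw [mul_smul_comm, map_smul]) with hΛ
  have hΛapp : ∀ g x, Λ g x = φ (g * x) := fun g x => rfl
  have hinj : Function.Injective Λ := by
    rw [injective_iff_map_eq_zero]
    intro g hg
    by_contra hg0
    apply hφ
    ext x
    have h2 := congrArg (fun ψ : Module.Dual k L => ψ (g⁻¹ * x)) hg
    simp only [hΛapp, LinearMap.zero_apply] at h2
    rw [mul_inv_cancel_left₀ hg0] at h2
    rw [h2, LinearMap.zero_apply]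
  have hsurj : Function.Surjective Λ :=
    (LinearMap.injective_iff_surjective_of_finrank_eq_finrank
      (Subspace.dual_finrank_eq (K := k) (V := L)).symm).1 hinj
  obtain ⟨g, hg⟩ := hsurj (b.coord last)
  have hg' : ∀ x, φ (g * x) = b.repr x last := by
    intro x
    rw [← hΛapp, hg, Module.Basis.coord_apply]
  have hg0 : g ≠ 0 := by
    rintro rfl
    have h2 := hg' (b last)
    rw [zero_mul, map_zero, Module.Basis.repr_self, Finsupp.single_eq_same] at h2
    exact zero_ne_one h2
  refine ⟨g⁻¹, inv_ne_zero hg0, fun i => ?_⟩
  set x := g⁻¹ * u i with hx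
  have hx0 : b.repr x last = 0 := by
    rw [← hg', hx, mul_inv_cancel_left₀ hg0, h0 i]
  have hx1 : b.repr (w * x) last = 0 := by
    rw [← hg', hx]
    have : g * (w * (g⁻¹ * u i)) = w * u i := by
      field_simp
    rw [this, h1 i]
  have hsum : x = ∑ j, b.repr x j • w ^ (j : ℕ) := by
    conv_lhs => rw [← b.sum_repr x]
    exact Finset.sum_congr rfl fun j _ => by rw [hbj]
  have hx2 : b.repr x prev = 0 := by
    have h2 : w * x = ∑ j, b.repr x j • w ^ ((j : ℕ) + 1) := by
      conv_lhs => rw [hsum, Finset.mul_sum]
      refine Finset.sum_congr rfl fun j _ => ?_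
      rw [mul_smul_comm, pow_succ']
    rw [h2, map_sum, Finsupp.finsetSum_apply] at hx1
    rw [Finset.sum_eq_single prev] at hx1
    · have h5 : w ^ ((prev : ℕ) + 1) = b last := by
        rw [hbj]
        congr 1
        rw [hprev, hlast]
        simp only
        omega
      rw [h5, map_smul, Finsupp.smul_apply, Module.Basis.repr_self, Finsupp.single_eq_same,
        smul_eq_mul, mul_one] at hx1
      exact hx1
    · intro j _ hj
      by_cases hjl : j = last
      · rw [hjl, hx0, zero_smul, map_zero, Finsupp.zero_apply]
      · have hjlt : (j : ℕ) + 1 < (minpoly k w).natDegree := by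
          have := j.2
          have h6 : (j : ℕ) ≠ (minpoly k w).natDegree - 1 := fun h => hjl (Fin.ext h)
          omega
        have h5 : w ^ ((j : ℕ) + 1) = b ⟨(j : ℕ) + 1, hjlt⟩ := by
          rw [hbj]
        rw [h5, map_smul, Finsupp.smul_apply, Module.Basis.repr_self,
          Finsupp.single_eq_of_ne, smul_zero]
        intro h
        apply hj
        apply Fin.ext
        have h7 := congrArg Fin.val h
        rw [hlast] at h7
        simp only at h7
        rw [hprev]
        simp only
        omega
    · intro h
      exact absurd (Finset.mem_univ prev) h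
  refine ⟨∑ j, Polynomial.C (b.repr x j) * Polynomial.X ^ (j : ℕ), ?_, ?_⟩
  · refine Polynomial.natDegree_sum_le_of_forall_le _ _ fun j _ => ?_
    by_cases hj : (j : ℕ) ≤ Module.finrank k L - 3
    · exact (Polynomial.natDegree_C_mul_X_pow_le _ _).trans hj
    · push Not at hj
      have hjd := j.2
      have h2 : j = last ∨ j = prev := by
        rw [hlast, hprev, Fin.ext_iff, Fin.ext_iff]
        simp only
        omega
      have h3 : b.repr x j = 0 := by
        rcases h2 with h2 | h2
        · rw [h2]; exact hx0
        · rw [h2]; exact hx2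
      rw [h3]
      simp
  · rw [map_sum]
    conv_rhs => rw [hsum]
    refine Finset.sum_congr rfl fun j _ => ?_
    rw [map_mul, map_pow, Polynomial.aeval_C, Polynomial.aeval_X, Algebra.smul_def]

/-- The line through two conjugate singular points lies on the cubic. -/
theorem line_zero (h2 : Module.finrank k L = 2) {f : MvPolynomial (Fin n) k}
    (hf : f.IsHomogeneous 3) (v : Fin n → L) (hsing : ∀ i, aeval v (pderiv i f) = 0) :
    aeval (fun i => Algebra.trace k L (v i)) f = 0 := by
  obtain ⟨w, hw⟩ : ∃ w : L, ∀ a : k, algebraMap k L a ≠ w := by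
    by_contra hall
    push Not at hall
    have h1 : Module.finrank k L ≤ 1 := by
      rw [finrank_le_one_iff]
      refine ⟨1, fun u => ?_⟩
      obtain ⟨a, ha⟩ := hall u
      exact ⟨a, by rw [← ha, Algebra.smul_def, mul_one]⟩
    omega
  choose a b hab using fun i => pair_span h2.le hw (v i)
  have hint : IsIntegral k w := Algebra.IsIntegral.isIntegral w
  have hq2 : (minpoly k w).natDegree = 2 := by
    apply le_antisymm
    · rw [← h2]; exact minpoly.natDegree_le w
    · by_contra hlt
      push Not at hlt
      have h1 : (minpoly k w).natDegree = 1 := by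
        have := minpoly.natDegree_pos hint
        omega
      rw [minpoly.natDegree_eq_one_iff] at h1
      obtain ⟨c, hc'⟩ := h1
      exact hw c hc'
  set y : Fin n → Polynomial k := fun i => Polynomial.C (a i) + Polynomial.C (b i) * Polynomial.X
    with hy
  have hydeg : ∀ i, (y i).natDegree ≤ 1 := by
    intro i
    rw [hy]
    exact (Polynomial.natDegree_add_le_of_degree_le (by simp)
      (Polynomial.natDegree_C_mul_le _ _ |>.trans Polynomial.natDegree_X_le))
  have hyv : ∀ i, Polynomial.aeval w (y i) = v i := by
    intro i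
    rw [hab i]
    simp [hy]
  obtain ⟨hd, -⟩ := natDegree_aeval hf y 1 hydeg
  have hdvd := sq_dvd hf hsing hyv
  have hP : aeval y f = 0 := by
    by_contra hne
    have h3 := Polynomial.natDegree_le_of_dvd hdvd hne
    rw [Polynomial.natDegree_pow, hq2] at h3
    omega
  set t : k := Algebra.trace k L w / 2 with ht
  have h4 : Polynomial.aeval t (aeval y f) = 0 := by rw [hP, map_zero]
  rw [aeval_comp (Polynomial.aeval t) y f] at h4
  have h5 : (fun i => Algebra.trace k L (v i)) = fun i => 2 * Polynomial.aeval t (y i) := by
    funext i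
    rw [hab i, map_add, Algebra.trace_algebraMap, h2, ← Algebra.smul_def, map_smul]
    simp only [hy, map_add, map_mul, Polynomial.aeval_C, Polynomial.aeval_X,
      Algebra.algebraMap_self_apply, ht, smul_eq_mul, nsmul_eq_mul]
    push_cast
    ring
  rw [h5, aeval_smul hf, h4, mul_zero]

/-- Multiples of singular points are singular. -/
theorem sing_smul {R : Type*} [CommRing R] [Algebra k R] {f : MvPolynomial (Fin n) k}
    (hf : f.IsHomogeneous 3) {v : Fin n → R} (hsing : ∀ i, aeval v (pderiv i f) = 0) (c : R)
    (i : Fin n) : aeval (fun j => c * v j) (pderiv i f) = 0 := by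
  rw [aeval_smul (N := 3 - 1) hf.pderiv, hsing i, mul_zero]

/-- A singular point over an extension of degree one, two, four or five. -/
theorem zero_of_sing_five {f : MvPolynomial (Fin n) k} (hf : f.IsHomogeneous 3)
    (v : Fin n → L) (hv : v ≠ 0) (hsing : ∀ i, aeval v (pderiv i f) = 0)
    (hd : Module.finrank k L ≤ 5) (h3 : Module.finrank k L ≠ 3) :
    ∃ z : Fin n → k, z ≠ 0 ∧ aeval z f = 0 := by
  have hpos : 0 < Module.finrank k L := Module.finrank_pos
  refine zero_of_sing_subspace hf (Submodule.span L {v}) (by omega) ?_ ?_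
  · intro u hu i
    obtain ⟨c, rfl⟩ := Submodule.mem_span_singleton.1 hu
    exact sing_smul hf hsing c i
  · rw [finrank_span_singleton hv, mul_one]
    have : Module.finrank k L - 1 - (2 * Module.finrank k L + 2) / 3 = 0 := by omega
    rw [this, zero_mul]
    exact hpos

private theorem ten_two {f : MvPolynomial (Fin n) k} (hf : f.IsHomogeneous 3)
    (v : Fin n → L) (hv : v ≠ 0) (hsing : ∀ i, aeval v (pderiv i f) = 0)
    (M : IntermediateField k L) (hM : Module.finrank k M ≤ 2) (hML : Module.finrank M L = 5) :
    ∃ z : Fin n → k, z ≠ 0 ∧ aeval z f = 0 := by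
  have hch : CharZero M := charZero_of_injective_algebraMap (algebraMap k M).injective
  have hf' : (map (algebraMap k M) f).IsHomogeneous 3 := hf.map _
  obtain ⟨z, hz, hfz⟩ := zero_of_sing_five (k := M) (L := L) hf' v hv
    (fun i => by rw [pderiv_map, aeval_map_algebraMap]; exact hsing i) (by omega) (by omega)
  rw [aeval_map_algebraMap] at hfz
  exact descend_two hM hf hz hfz

private theorem ten_five {f : MvPolynomial (Fin n) k} (hf : f.IsHomogeneous 3)
    (v : Fin n → L) (hv : v ≠ 0) (hsing : ∀ i, aeval v (pderiv i f) = 0)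
    (M : IntermediateField k L) (hM : Module.finrank k M = 5) (hML : Module.finrank M L = 2)
    (w : M) (hw : (minpoly k w).natDegree = 5)
    (h0 : ∀ i, Algebra.trace k L (v i) = 0)
    (h1 : ∀ i, Algebra.trace k L (algebraMap M L w * v i) = 0) :
    ∃ z : Fin n → k, z ≠ 0 ∧ aeval z f = 0 := by
  have hch : CharZero M := charZero_of_injective_algebraMap (algebraMap k M).injective
  have hf' : (map (algebraMap k M) f).IsHomogeneous 3 := hf.map _
  by_cases hu : (fun i => Algebra.trace M L (v i)) = 0
  · -- `v` is proportional to a vector over `M`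
    obtain ⟨i0, hi0⟩ : ∃ i, v i ≠ 0 := by
      by_contra hall
      push Not at hall
      exact hv (funext hall)
    have htr : ∀ i, Algebra.trace M L (v i) = 0 := fun i => congrFun hu i
    have hnot : ∀ a : M, algebraMap M L a ≠ v i0 := by
      intro a ha
      have h2 := htr i0
      rw [← ha, Algebra.trace_algebraMap, hML, nsmul_eq_mul, mul_eq_zero] at h2
      rcases h2 with h2 | h2
      · exact absurd h2 (by norm_num)
      · rw [h2, map_zero] at ha
        exact hi0 ha.symm
    have hb : ∀ i, ∃ b : M, v i = algebraMap M L b * v i0 := by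
      intro i
      obtain ⟨a, b, hab⟩ := pair_span hML.le hnot (v i)
      have h2 := htr i
      rw [hab, map_add, Algebra.trace_algebraMap, hML, ← Algebra.smul_def, map_smul, htr i0,
        smul_zero, add_zero, nsmul_eq_mul, mul_eq_zero] at h2
      rcases h2 with h2 | h2
      · exact absurd h2 (by norm_num)
      · rw [h2, map_zero, zero_add] at hab
        exact ⟨b, hab⟩
    choose b hb using hb
    have hbv : (fun i => algebraMap M L (b i)) = fun i => (v i0)⁻¹ * v i := by
      funext i
      rw [hb i]
      field_simp
    refine zero_of_sing_five (k := k) (L := M) hf b ?_ ?_ (by omega) (by omega)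
    · intro h
      have h2 := congrFun h i0
      rw [Pi.zero_apply] at h2
      apply hi0
      rw [hb i0, h2, map_zero, zero_mul]
    · intro i
      have h2 := sing_smul hf hsing (v i0)⁻¹ i
      rw [← hbv] at h2
      have h4 := aeval_algebraMap_apply L b (pderiv i f)
      have h5 : algebraMap M L (aeval b (pderiv i f)) = 0 := by
        rw [← h4]; exact h2
      exact (map_eq_zero_iff _ (algebraMap M L).injective).1 h5
  · have hfu : aeval (fun i => Algebra.trace M L (v i)) f = 0 := by
      have h2 := line_zero (k := M) (L := L) hML hf' v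
        (fun i => by rw [pderiv_map, aeval_map_algebraMap]; exact hsing i)
      rwa [aeval_map_algebraMap] at h2
    have hφ0 : Algebra.trace k M ≠ 0 := by
      intro h
      have h2 : Algebra.trace k M (algebraMap k M 1) = (Module.finrank k M : k) := by
        rw [Algebra.trace_algebraMap, nsmul_eq_mul, mul_one]
      rw [h, LinearMap.zero_apply, hM] at h2
      exact absurd h2 (by norm_num)
    obtain ⟨c, hc, hp⟩ := two_functionals (k := k) (L := M) (w := w) (by rw [hw, hM])
      (by omega) (Algebra.trace k M) hφ0 (fun i => Algebra.trace M L (v i))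
      (fun i => by rw [Algebra.trace_trace]; exact h0 i)
      (fun i => by
        rw [← smul_eq_mul, ← map_smul, Algebra.trace_trace, Algebra.smul_def]
        exact h1 i)
    refine contact_one (k := k) (L := M) hf (w := w)
      (u := fun i => c * Algebra.trace M L (v i)) ?_ ?_ hp (by rw [hw]; norm_num)
      (by rw [hw, hM]; omega)
    · intro h
      apply hu
      funext i
      have h2 := congrFun h i
      simp only [Pi.zero_apply] at h2 ⊢
      exact (mul_eq_zero.1 h2).resolve_left hc
    · rw [aeval_smul hf, hfu, mul_zero]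

/-- Singular points over extensions of degree ten and eleven whose coordinates span a subspace
of codimension at least two. -/
theorem zero_of_ten_eleven {f : MvPolynomial (Fin n) k} (hf : f.IsHomogeneous 3)
    (v : Fin n → L) (hv : v ≠ 0) (hsing : ∀ i, aeval v (pderiv i f) = 0)
    (hd : Module.finrank k L = 10 ∨ Module.finrank k L = 11) (hn : n + 2 ≤ Module.finrank k L) :
    ∃ z : Fin n → k, z ≠ 0 ∧ aeval z f = 0 := by
  classical
  set φ : L →ₗ[k] k := Algebra.trace k L with hφ
  have hφ1 : φ 1 = (Module.finrank k L : k) := by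
    rw [hφ, ← map_one (algebraMap k L), Algebra.trace_algebraMap, nsmul_eq_mul, mul_one]
  have hφ0 : φ ≠ 0 := by
    intro h
    rw [h, LinearMap.zero_apply] at hφ1
    have : Module.finrank k L ≠ 0 := by omega
    exact this (by exact_mod_cast hφ1.symm)
  -- two independent multipliers
  set Ψ : L →ₗ[k] (Fin n → k) := LinearMap.pi (fun i => φ ∘ₗ (LinearMap.mulRight k (v i))) with hΨ
  have hΨapp : ∀ c i, Ψ c i = φ (c * v i) := fun c i => rfl
  have hker : 2 ≤ Module.finrank k (LinearMap.ker Ψ) := by
    have h1 := LinearMap.finrank_range_add_finrank_ker Ψ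
    have h2 : Module.finrank k (LinearMap.range Ψ) ≤ n := by
      have := Submodule.finrank_le (LinearMap.range Ψ)
      rwa [Module.finrank_fintype_fun_eq_card, Fintype.card_fin] at this
    omega
  obtain ⟨c1, hc1, hc10⟩ : ∃ c1 ∈ LinearMap.ker Ψ, c1 ≠ 0 := by
    by_contra hall
    push Not at hall
    have h1 : LinearMap.ker Ψ = ⊥ := (Submodule.eq_bot_iff _).2 hall
    rw [h1, finrank_bot] at hker
    omega
  obtain ⟨c2, hc2, hc21⟩ : ∃ c2 ∈ LinearMap.ker Ψ, ∀ a : k, a • c1 ≠ c2 := by
    by_contra hall
    push Not at hall
    have h1 : Module.finrank k (LinearMap.ker Ψ) ≤ 1 := by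
      refine finrank_le_one (⟨c1, hc1⟩ : LinearMap.ker Ψ) fun u => ?_
      obtain ⟨a, ha⟩ := hall u u.2
      exact ⟨a, Subtype.ext ha⟩
    omega
  set θ : L := c2 / c1 with hθ
  have hθc : θ * c1 = c2 := by rw [hθ]; field_simp
  have hint : IsIntegral k θ := Algebra.IsIntegral.isIntegral θ
  have e1 : ∀ i, φ (c1 * v i) = 0 := fun i => by
    have := congrFun (LinearMap.mem_ker.1 hc1) i
    rwa [hΨapp] at this
  have e2 : ∀ i, φ (θ * (c1 * v i)) = 0 := fun i => by
    have := congrFun (LinearMap.mem_ker.1 hc2) i
    rw [hΨapp, ← hθc, mul_assoc] at this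
    exact this
  have hv1 : (fun i => c1 * v i) ≠ 0 := by
    intro h
    apply hv
    funext i
    have h2 := congrFun h i
    simp only [Pi.zero_apply] at h2 ⊢
    exact (mul_eq_zero.1 h2).resolve_left hc10
  have hs1 : ∀ i, aeval (fun j => c1 * v j) (pderiv i f) = 0 := sing_smul hf hsing c1
  have hm1 : (minpoly k θ).natDegree ≠ 1 := by
    intro h
    rw [minpoly.natDegree_eq_one_iff] at h
    obtain ⟨a, ha⟩ := h
    apply hc21 a
    rw [Algebra.smul_def, ha, hθc]
  have hfr : Module.finrank k (IntermediateField.adjoin k {θ}) = (minpoly k θ).natDegree :=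
    IntermediateField.adjoin.finrank hint
  have hmul := Module.finrank_mul_finrank k (IntermediateField.adjoin k {θ}) L
  rw [hfr] at hmul
  set m := (minpoly k θ).natDegree with hm
  by_cases hmd : m = Module.finrank k L
  · obtain ⟨c, hc, hp⟩ := two_functionals (w := θ) hmd (by omega) φ hφ0 (fun i => c1 * v i) e1 e2
    refine contact_two hf (w := θ) (u := fun i => c * (c1 * v i)) ?_ (sing_smul hf hs1 c) hp ?_ ?_
    · intro h
      apply hv1
      funext i
      have h2 := congrFun h i
      simp only [Pi.zero_apply] at h2 ⊢
      exact (mul_eq_zero.1 h2).resolve_left hc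
    · rw [← hm, hmd]; omega
    · rw [← hm, hmd]; omega
  · have hdvd : m ∣ Module.finrank k L := Dvd.intro _ hmul
    have h10 : Module.finrank k L = 10 := by
      rcases hd with h | h
      · exact h
      · exfalso
        rw [h] at hdvd hmd
        rcases (Nat.dvd_prime (by norm_num)).1 hdvd with h1 | h1
        · exact hm1 h1
        · exact hmd h1
    rw [h10] at hdvd hmd hmul
    have hm25 : m = 2 ∨ m = 5 := by
      have h1 : m ≤ 10 := Nat.le_of_dvd (by norm_num) hdvd
      interval_cases m <;> omega
    rcases hm25 with h2 | h5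
    · refine ten_two hf v hv hsing (IntermediateField.adjoin k {θ}) (by rw [hfr, h2]) ?_
      rw [h2] at hmul
      omega
    · have hML : Module.finrank (IntermediateField.adjoin k {θ}) L = 2 := by
        rw [h5] at hmul
        omega
      refine ten_five hf (fun i => c1 * v i) hv1 hs1 (IntermediateField.adjoin k {θ})
        (by rw [hfr, h5]) hML (IntermediateField.AdjoinSimple.gen k θ) ?_ e1 ?_
      · rw [IntermediateField.minpoly_gen, ← hm, h5]
      · intro i
        rw [IntermediateField.AdjoinSimple.algebraMap_gen]
        exact e2 i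

end Pool.Agent.Cub
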