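import Pool.Agent.Cub.Sect

set_option autoImplicit false

/-! Descent along towers of quadratic extensions, and integer zeros. -/

namespace Pool.Agent.Cub

open MvPolynomial

variable {n : ℕ}

private theorem tower_step {k : Type*} [Field k] [CharZero k] {L : Type*} [Field L] [Algebra k L]
    [FiniteDimensional k L] (F E : IntermediateField k L) (hFE : F ≤ E)
    (h2 : Module.finrank k E ≤ 2 * Module.finrank k F)
    {f : MvPolynomial (Fin n) k} (hf : f.IsHomogeneous 3) {x : Fin n → E} (hx : x ≠ 0)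
    (hfx : aeval x f = 0) : ∃ z : Fin n → F, z ≠ 0 ∧ aeval z f = 0 := by
  letI : Algebra F E := (IntermediateField.inclusion hFE).toRingHom.toAlgebra
  haveI : IsScalarTower k F E := IsScalarTower.of_algebraMap_eq (fun x => rfl)
  haveI : FiniteDimensional F E := FiniteDimensional.right k F E
  have hmul := Module.finrank_mul_finrank k F E
  have hpos : 0 < Module.finrank k F := Module.finrank_pos
  have hle : Module.finrank F E ≤ 2 := by
    rw [← hmul, mul_comm 2] at h2
    exact Nat.le_of_mul_le_mul_left h2 hpos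
  have hf' : (map (algebraMap k F) f).IsHomogeneous 3 := hf.map _
  obtain ⟨z, hz, hfz⟩ := descend_two (k := F) (E := E) hle hf' hx
    (by rw [aeval_map_algebraMap]; exact hfx)
  rw [aeval_map_algebraMap] at hfz
  exact ⟨z, hz, hfz⟩

/-- Descent along a tower of quadratic extensions. -/
theorem tower_descend {k : Type*} [Field k] [CharZero k] {L : Type*} [Field L] [Algebra k L]
    [FiniteDimensional k L] (K : ℕ → IntermediateField k L) (h0 : K 0 = ⊥) (j : ℕ) :
    (∀ i < j, K i ≤ K (i + 1) ∧ Module.finrank k (K (i + 1)) ≤ 2 * Module.finrank k (K i)) →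
    ∀ {f : MvPolynomial (Fin n) k}, f.IsHomogeneous 3 → ∀ x : Fin n → K j, x ≠ 0 →
      aeval x f = 0 → ∃ z : Fin n → k, z ≠ 0 ∧ aeval z f = 0 := by
  induction j with
  | zero =>
    intro _ f hf x hx hfx
    refine descend_two (E := K 0) ?_ hf hx hfx
    rw [h0, IntermediateField.finrank_bot]
    norm_num
  | succ j ih =>
    intro hK f hf x hx hfx
    obtain ⟨h1, h2⟩ := hK j (Nat.lt_succ_self j)
    obtain ⟨z, hz, hfz⟩ := tower_step (K j) (K (j + 1)) h1 h2 hf hx hfx
    exact ih (fun i hi => hK i (Nat.lt_succ_of_lt hi)) hf z hz hfz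

/-- The main theorem over a tower of quadratic extensions. -/
theorem zero_tower {k : Type*} [Field k] [CharZero k] {f : MvPolynomial (Fin n) k}
    (hf : f.IsHomogeneous 3) (L : Type*) [Field L] [Algebra k L] [FiniteDimensional k L]
    (K : ℕ → IntermediateField k L) (j : ℕ) (hK0 : K 0 = ⊥)
    (hK : ∀ i < j, K i ≤ K (i + 1) ∧ Module.finrank k (K (i + 1)) ≤ 2 * Module.finrank k (K i))
    (S : Submodule (K j) (Fin n → K j)) (U : Submodule L (Fin n → L)) (hU : U ≠ ⊥)
    (hUS : ∀ u ∈ U, u ∈ Submodule.span L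
      ((fun (s : Fin n → K j) (i : Fin n) => algebraMap (K j) L (s i)) '' (S : Set (Fin n → K j))))
    (h3 : ¬ 3 ∣ Module.finrank (K j) L)
    (h : ((∀ u ∈ U, aeval u f = 0) ∧
        (Module.finrank (K j) L - 1 - (Module.finrank (K j) L + 2) / 3) * Module.finrank (K j) S
          < Module.finrank (K j) L * Module.finrank L U) ∨
      ((∀ u ∈ U, ∀ i, aeval u (pderiv i f) = 0) ∧
        ((Module.finrank (K j) L - 1 - (2 * Module.finrank (K j) L + 2) / 3) *
            Module.finrank (K j) S < Module.finrank (K j) L * Module.finrank L U ∨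
          ((Module.finrank (K j) L = 10 ∨ Module.finrank (K j) L = 11) ∧
            Module.finrank (K j) S + 2 ≤ Module.finrank (K j) L)))) :
    ∃ z : Fin n → k, z ≠ 0 ∧ aeval z f = 0 := by
  have hch : CharZero (K j) := charZero_of_injective_algebraMap (algebraMap k (K j)).injective
  have hf' : (map (algebraMap k (K j)) f).IsHomogeneous 3 := hf.map _
  obtain ⟨z, hz, hfz⟩ := zero_general (k := K j) (L := L) hf' S U hU hUS h3 (by
    rcases h with ⟨h1, h2⟩ | ⟨h1, h2⟩
    · left
      refine ⟨fun u hu => ?_, h2⟩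
      rw [aeval_map_algebraMap]
      exact h1 u hu
    · right
      refine ⟨fun u hu i => ?_, h2⟩
      rw [pderiv_map, aeval_map_algebraMap]
      exact h1 u hu i)
  rw [aeval_map_algebraMap] at hfz
  exact tower_descend K hK0 j hK hf z hz hfz

/-- A rational zero gives an integer zero. -/
theorem integer_zero {f : MvPolynomial (Fin n) ℚ} (hf : f.IsHomogeneous 3)
    (h : ∃ z : Fin n → ℚ, z ≠ 0 ∧ aeval z f = 0) :
    ∃ x : Fin n → ℤ, x ≠ 0 ∧ eval (fun i => (x i : ℚ)) f = 0 := by
  obtain ⟨z, hz, hfz⟩ := h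
  obtain ⟨b, hb⟩ := IsLocalization.exist_integer_multiples_of_finite (nonZeroDivisors ℤ) z
  choose x hx using hb
  have hb0 : ((b : ℤ) : ℚ) ≠ 0 := by
    exact_mod_cast nonZeroDivisors.ne_zero b.2
  have hxz : ∀ i, (x i : ℚ) = ((b : ℤ) : ℚ) * z i := by
    intro i
    have h1 := hx i
    rw [zsmul_eq_mul] at h1
    exact h1
  refine ⟨x, ?_, ?_⟩
  · intro h0
    apply hz
    funext i
    have h1 := hxz i
    rw [h0, Pi.zero_apply, Int.cast_zero] at h1
    exact (mul_eq_zero.1 h1.symm).resolve_left hb0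
  · have h2 : (fun i => (x i : ℚ)) = fun i => ((b : ℤ) : ℚ) * z i := funext hxz
    have h3 := aeval_smul (k := ℚ) (R := ℚ) hf ((b : ℤ) : ℚ) z
    rw [hfz, mul_zero] at h3
    rw [h2, ← coe_aeval_eq_eval]
    exact h3

end Pool.Agent.Cub
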